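import Mathlib
import Pool.Agent.H.MP_84ba36_lc.A

set_option autoImplicit false

namespace Pool.Agent.H.MP_6e75db_lc

open Set Filter Function Cardinal Order Pool.Agent.H.MP_77d395_lc

/-- `T` is a tree of height at most omega one with height function `h` -/
def Tr (T : Type) [PartialOrder T] (h : T → I) : Prop :=
  StrictMono h ∧ (∀ t : T, IsChain (· ≤ ·) (Iio t)) ∧ ∀ t, ∀ b < h t, ∃ s < t, h s = b

/-- normality, including height exactly omega one -/
def Nm (T : Type) [PartialOrder T] (h : T → I) : Prop :=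
  (∃ r : T, ∀ t, r ≤ t) ∧ (∀ t a, ∃ s, h s = a ∧ (s ≤ t ∨ t ≤ s)) ∧
    ∀ s t, h s = h t → IsSuccLimit (h s) → Iio s = Iio t → s = t

theorem ps (b : I) : ∃ ψ : I → ℚ, StrictMonoOn ψ (Iic b) ∧
    ∀ c ≤ b, IsSuccLimit c → ∀ q < ψ c, ∃ d < c, q < ψ d := by
  have := (cI b).to_subtype
  have : Nonempty (Iic b) := ⟨⟨b, self_mem_Iic⟩⟩
  have : Countable (ℚ ⊕ₗ (Iic b ×ₗ ℚ≥0)) := inferInstanceAs (Countable (ℚ ⊕ Iic b × ℚ≥0))
  obtain ⟨θ⟩ := iso_of_countable_dense (ℚ ⊕ₗ (Iic b ×ₗ ℚ≥0)) ℚ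
  refine ⟨fun c => θ (Sum.inrₗ (toLex (⟨min c b, mem_Iic.2 (min_le_right _ _)⟩, 0))), fun c h d g l =>
    θ.strictMono (Sum.Lex.inr_lt_inr_iff.2 (Prod.Lex.toLex_lt_toLex.2 (.inl (by
      simpa [min_eq_left (mem_Iic.1 h), min_eq_left (mem_Iic.1 g)] using l)))), fun c h l q g => ?_⟩
  obtain ⟨x | ⟨d, r⟩, rfl⟩ := θ.surjective q
  · exact l.nonempty_Iio.imp fun d h => ⟨h, θ.strictMono (Sum.Lex.inl_lt_inr _ _)⟩
  have : d.1 < c := by
    simpa [min_eq_left h, ← Subtype.coe_lt_coe] using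
      Prod.Lex.toLex_lt_toLex.1 (Sum.Lex.inr_lt_inr_iff.1 (θ.lt_iff_lt.1 g))
  obtain ⟨e, e1, e2⟩ := (not_covBy_iff this).1 (l.2 _)
  exact ⟨e, e2, θ.strictMono (Sum.Lex.inr_lt_inr_iff.2 (Prod.Lex.toLex_lt_toLex.2 (.inl (by
    simpa [min_eq_left (e2.le.trans h), ← Subtype.coe_lt_coe] using e1))))⟩

noncomputable def o : I := wellFounded_lt.min Set.univ univ_nonempty

theorem ol (a : I) : o ≤ a := not_lt.1 (wellFounded_lt.not_lt_min Set.univ (mem_univ a))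

@[ext] structure U where
  a : I
  g : I → ℚ × I × Bool
  n : ∀ c, a < c → g c = (0, o, false)
  z : g o = (0, o, false)
  m : StrictMonoOn (fun c => (g c).1) (Iic a)
  l : ∀ c ≤ a, IsSuccLimit c → (g c).2 = (o, false) ∧ ∀ q < (g c).1, ∃ d < c, q < (g d).1

theorem ex {s t : U} (h : s.a = t.a) (e : ∀ c ≤ s.a, s.g c = t.g c) : s = t :=
  U.ext h (funext fun c => (le_or_gt c s.a).elim (e c) fun g => (s.n c g).trans (t.n c (h ▸ g)).symm)

instance : PartialOrder U where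
  le s t := s.a ≤ t.a ∧ ∀ c ≤ s.a, s.g c = t.g c
  le_refl _ := ⟨le_rfl, fun _ _ => rfl⟩
  le_trans _ _ _ h g := ⟨h.1.trans g.1, fun c e => (h.2 c e).trans (g.2 c (e.trans h.1))⟩
  le_antisymm _ _ h g := ex (h.1.antisymm g.1) h.2

theorem cm {s t u : U} (h : s ≤ u) (g : t ≤ u) (e : s.a ≤ t.a) : s ≤ t :=
  ⟨e, fun c l => (h.2 c l).trans (g.2 c (l.trans e)).symm⟩

theorem sm : StrictMono U.a := fun _ _ h => h.le.1.lt_of_ne fun e => h.ne (ex e h.le.2)

open Classical in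
theorem op (t : U) (b : I) : ∃ s : U, s.a = b ∧ (s ≤ t ∨ t ≤ s) := by
  by_cases h : b ≤ t.a
  · refine ⟨⟨b, fun c => if c ≤ b then t.g c else (0, o, false), fun c h => if_neg h.not_ge,
      (if_pos (ol b)).trans t.z, fun c e d g l => ?_, fun c e l => ?_⟩, rfl,
      .inl ⟨h, fun c e => if_pos e⟩⟩
    · simpa only [if_pos (mem_Iic.1 e), if_pos (mem_Iic.1 g)] using t.m (e.trans h) (g.trans h) l
    · simp only [if_pos e]
      exact (t.l c (e.trans h) l).imp_right fun k q g => (k q g).imp fun d g =>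
        ⟨g.1, by simpa only [if_pos (g.1.le.trans e)] using g.2⟩
  obtain ⟨ψ, p1, p2⟩ := ps b
  replace h := (not_le.1 h).le
  refine ⟨⟨b, fun c => if c ≤ t.a then t.g c else if c ≤ b then
    (ψ c - ψ t.a + (t.g t.a).1, o, false) else (0, o, false), fun c g => by
      rw [if_neg (h.trans_lt g).not_ge, if_neg g.not_ge], (if_pos (ol _)).trans t.z,
    fun c e d g l => ?_, fun c e l => ?_⟩, rfl, .inr ⟨h, fun c e => (if_pos e).symm⟩⟩
  · simp only [if_pos (mem_Iic.1 e), if_pos (mem_Iic.1 g)]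
    split_ifs with h1 h2 h2
    · exact t.m h1 h2 l
    · have := p1 h g (not_le.1 h2)
      have := t.m.monotoneOn h1 self_mem_Iic h1
      simp only at *
      linarith
    · exact (h1 (l.le.trans h2)).elim
    · simpa using p1 e g l
  by_cases h1 : c ≤ t.a
  · simp only [if_pos h1]
    exact (t.l c h1 l).imp_right fun k q g => (k q g).imp fun d g =>
      ⟨g.1, by simpa only [if_pos (g.1.le.trans h1)] using g.2⟩
  simp only [if_neg h1, if_pos e, true_and]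
  intro q g
  obtain ⟨d, d1, d2⟩ := p2 c e l (max (q - (t.g t.a).1 + ψ t.a) (ψ t.a))
    (max_lt (by linarith) (p1 h e (not_le.1 h1)))
  have : ¬ d ≤ t.a := fun g => (p1.monotoneOn (g.trans h) h g).not_gt (max_lt_iff.1 d2).2
  exact ⟨d, d1, by simp only [if_neg this, if_pos (d1.le.trans e)]; linarith [(max_lt_iff.1 d2).1]⟩

open Classical in
theorem bs : ∃ (w : I) (ν : ℕ → I), (∀ c < w, (Iic c).Finite) ∧ (∀ i, ν i < w) ∧
    ∀ ℓ : ℕ → I × Bool, ∃ x : U, x.a = w ∧ (∀ c, (x.g c).2 ∈ insert (o, false) (range ℓ)) ∧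
      ∀ i, (x.g (ν i)).2 = ℓ i := by
  obtain ⟨w, w1, w2⟩ := wellFounded_lt.has_min {w : I | (Iio w).Infinite} (by
    have : Infinite I := infinite_iff.2 (mkI ▸ aleph0_le_aleph 1)
    obtain ⟨b, hb⟩ := unc ((countable_range (Infinite.natEmbedding I)).biUnion fun a _ => cI a)
    refine ⟨b, (infinite_range_of_injective (Infinite.natEmbedding I).2).mono fun a h => ?_⟩
    exact show a < b from not_le.1 fun c => hb (mem_biUnion h c))
  have f : ∀ c < w, (Iio c).Finite := fun c h => not_not.1 fun g => w2 c g h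
  let ν := (w1.sdiff (finite_singleton o)).natEmbedding
  have i : Injective fun n => (ν n).1 := Subtype.val_injective.comp ν.2
  obtain ⟨ψ, p1, p2⟩ := ps w
  refine ⟨w, fun n => ν n, fun c h => Iio_insert (a := c) ▸ (f c h).insert c, fun n => (ν n).2.1,
    fun ℓ => ⟨⟨w, fun c => if c ≤ w then (ψ c - ψ o, extend (fun n => (ν n).1) ℓ (fun _ =>
      (o, false)) c) else (0, o, false), fun c h => if_neg h.not_ge, ?_, fun c e d g l => ?_,
      fun c e l => ⟨?_, fun q g => ?_⟩⟩, rfl, fun c => ?_, fun n => ?_⟩⟩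
  · rw [if_pos (ol w), extend_apply' _ _ _ fun ⟨n, h⟩ => (ν n).2.2 h, sub_self]
  · simpa only [if_pos (mem_Iic.1 e), if_pos (mem_Iic.1 g), sub_lt_sub_iff_right] using p1 e g l
  · rw [if_pos e, extend_apply']
    rintro ⟨n, rfl⟩
    obtain ⟨a, a1, a2⟩ := exists_max_image _ id (f _ (ν n).2.1) l.nonempty_Iio
    obtain ⟨b, b1, b2⟩ := (not_covBy_iff a1).1 (l.2 _)
    exact (a2 b b2).not_gt b1
  · rw [if_pos e] at g
    exact (p2 c e l (q + ψ o) (by linarith)).imp fun d h => ⟨h.1, by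
      rw [if_pos (h.1.le.trans e)]; linarith [h.2]⟩
  · dsimp only
    split_ifs
    · by_cases h : ∃ n, (ν n).1 = c
      · obtain ⟨n, rfl⟩ := h
        exact .inr ⟨n, (i.extend_apply ℓ (fun _ => (o, false)) n).symm⟩
      · exact .inl (extend_apply' ℓ (fun _ => (o, false)) _ h)
    · exact .inl rfl
  · exact (congrArg Prod.snd (if_pos (ν n).2.1.le)).trans (i.extend_apply ℓ (fun _ => (o, false)) n)

theorem bd {s : Set I} (c : s.Countable) : ∃ b, ∀ a ∈ s, a < b :=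
  (unc (c.biUnion fun a _ => cI a)).imp fun _ hb _ ha => not_le.1 fun g => hb (mem_biUnion ha g)

theorem clo (G : I → I) : ∃ δ, o < δ ∧ ∀ γ < δ, G γ < δ := by
  choose g hg using fun a => bd (((cI a).image G).insert a)
  obtain ⟨b, hb, hm⟩ := wellFounded_lt.has_min {b | ∀ n, g^[n] o < b}
    ((bd (countable_range fun n => g^[n] o)).imp fun b h n => h _ ⟨n, rfl⟩)
  refine ⟨b, hb 0, fun γ h => ?_⟩
  obtain ⟨n, hn⟩ := not_forall.1 fun c => hm γ c h
  exact (hg _ _ (.inr ⟨γ, not_lt.1 hn, rfl⟩)).trans (iterate_succ_apply' g n o ▸ hb (n + 1))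

theorem main : ∃ (S : Type) (_ : PartialOrder S) (h : S → I), Tr S h ∧ Nm S h ∧ #S ≤ ℵ₁ ∧
    (∀ C : Set S, IsChain (· ≤ ·) C → C.Countable) ∧ (∃ f : S → ℚ, StrictMono f) ∧
    ∀ (T : Type) [PartialOrder T] (k : T → I), Tr T k → (∀ a, (k ⁻¹' {a}).Countable) →
      ¬ ∃ e : S → T, Injective e ∧ ∀ s t, s < t ↔ e s < e t := by
  choose op o1 o2 using op
  obtain ⟨w, ν, w1, w2, w3⟩ := bs
  choose x x1 x2 x3 using w3
  obtain ⟨ρ, hρ⟩ := MP_84ba36_lc.rr
  have : ∀ δ : I, ∃ ξ : ℕ → I, o < δ → Iio δ = range ξ := fun δ => by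
    by_cases h : o < δ
    · exact (((cI δ).mono Iio_subset_Iic_self).exists_eq_range ⟨o, h⟩).imp fun _ h _ => h
    · exact ⟨fun _ => δ, fun c => (h c).elim⟩
  choose ξ hξ using this
  let S := range fun p : I × I × List I =>
    p.2.2.foldr (fun b t => op t b) (x fun i => (ξ p.1 i, ρ p.2.1 i))
  let R : S → I → S := fun t b => ⟨op t b, let ⟨p, h⟩ := t.2; ⟨(p.1, p.2.1, b :: p.2.2), h ▸ rfl⟩⟩
  have r1 : ∀ t, ∀ b ≤ t.1.a, R t b ≤ t := fun t b h => (o2 t b).elim id fun g =>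
    cm le_rfl g ((o1 t b).trans_le h)
  have r2 : ∀ t, ∀ b < t.1.a, R t b < t := fun t b h => (r1 t b h.le).lt_of_ne fun e =>
    h.ne ((o1 t b).symm.trans (congrArg (·.1.a) e))
  have f : StrictMono fun t : S => (t.1.g t.1.a).1 := fun s t h => by
    simpa only [h.le.2 _ le_rfl] using t.1.m h.le.1 self_mem_Iic (sm h)
  refine ⟨S, _, fun t => t.1.a, ⟨fun _ _ h => sm h, fun t a h b g _ => (le_total a.1.a b.1.a).imp
    (cm h.le g.le) (cm g.le h.le), fun t b h => ⟨_, r2 t b h, o1 _ _⟩⟩, ⟨⟨R ⟨_, (o, o, []), rfl⟩ o,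
      fun t => ⟨(o1 _ _).trans_le (ol _), fun c h => ?_⟩⟩, fun t a => ⟨R t a, o1 _ _, o2 _ _⟩,
      fun s t e l c => Subtype.ext (ex e fun d h => ?_)⟩, mk_range_le.trans (by
        simp [mk_list_eq_max_mk_aleph0, aleph0_le_aleph]), fun C c => countable_of_injective_of_countable_image
        (fun a h b g e => by_contra fun ne => (c h g ne).elim (fun l => (f (l.lt_of_ne ne)).ne e)
          fun l => (f (l.lt_of_ne' ne)).ne' e) (to_countable _), ⟨_, f⟩,
      fun T _ k ⟨k1, k2, k3⟩ k4 ⟨e, e1, e2⟩ => ?_⟩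
  · obtain rfl := (h.trans_eq (o1 _ _)).antisymm (ol c)
    exact (U.z _).trans (U.z _).symm
  · have a : ∀ d < s.1.a, s.1.g d = t.1.g d := fun d h => ((r2 s d h).le.2 d (o1 _ _).ge).symm.trans
      ((show R s d < t from c.le (r2 s d h)).le.2 d (o1 _ _).ge)
    refine h.eq_or_lt.elim (fun g => ?_) (a d)
    subst g
    obtain ⟨a1, a2⟩ := s.1.l _ le_rfl l
    obtain ⟨a3, a4⟩ := t.1.l _ e.le l
    refine Prod.ext (le_antisymm (not_lt.1 fun g => ?_) (not_lt.1 fun g => ?_)) (a1.trans a3.symm)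
    · obtain ⟨d, d1, d2⟩ := a2 _ g
      exact d2.not_gt (a d d1 ▸ t.1.m (d1.le.trans e.le) e.le d1)
    · obtain ⟨d, d1, d2⟩ := a4 _ g
      exact d2.not_gt (a d d1 ▸ s.1.m d1.le self_mem_Iic d1)
  choose g1 h1 using fun γ => bd (s := ⋃ s ∈ e ⁻¹' ⋃ a ∈ Iic γ, k ⁻¹' {a}, (fun c => (s.1.g c).2.1) ''
    Iic w) ((((cI γ).biUnion fun a _ => k4 a).preimage e1).biUnion fun _ _ => (cI w).image _)
  choose g2 h2 using fun β => bd (s := (k ∘ e) '' ⋃ c ∈ Iio w, {s | s.1.a = c ∧ ∀ d,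
    (s.1.g d).2.1 ≤ β}) (.image (((cI w).mono Iio_subset_Iic_self).biUnion fun c h => by
      have := (w1 c h).to_subtype
      exact countable_of_injective_of_countable_image (f := fun s (d : Iic c) => s.1.g d)
        (fun s a t b g => Subtype.ext (ex (a.1.trans b.1.symm) fun d h =>
          congrFun g ⟨d, h.trans_eq a.1⟩)) ((countable_pi fun _ => countable_univ.prod
            ((cI β).prod countable_univ)).mono (by
              rintro _ ⟨s, a, rfl⟩ d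
              exact ⟨trivial, a.2 d, trivial⟩))) _)
  obtain ⟨δ, d1, d2⟩ := clo fun γ => max (g1 γ) (g2 γ)
  let X : I → S := fun r => ⟨_, (δ, r, []), rfl⟩
  have a1 : ∀ r i, R (X r) (ν i) < X r := fun r i => r2 _ _ ((w2 i).trans_eq (x1 _).symm)
  have a2 : ∀ r i, ((R (X r) (ν i)).1.g (ν i)).2 = (ξ δ i, ρ r i) := fun r i =>
    (congrArg Prod.snd ((a1 r i).le.2 _ (o1 _ _).ge)).trans (x3 _ i)
  have a3 : ∀ r i, k (e (R (X r) (ν i))) < δ := fun r i => by
    obtain ⟨d, -, hd⟩ := exists_max_image _ (fun d => ((X r).1.g d).2.1) (w1 _ (w2 i)) nonempty_Iic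
    refine (h2 _ _ ⟨_, mem_biUnion (w2 i) ⟨o1 _ _, fun c => (le_or_gt c (ν i)).elim (fun h =>
      (a1 r i).le.2 c (h.trans (o1 _ _).ge) ▸ hd c h) fun h => U.n _ c ((o1 _ _).trans_lt h) ▸
        ol _⟩, rfl⟩).trans (max_lt_iff.1 (d2 _ ?_)).2
    rcases x2 _ d with h | ⟨j, h⟩
    · exact (congrArg Prod.fst h).trans_lt d1
    · exact (congrArg Prod.fst h).symm.trans_lt ((hξ δ d1).ge ⟨j, rfl⟩)
  have : ∀ r, ∃ u ≤ e (X r), k u = δ := fun r => by
    rcases lt_trichotomy δ (k (e (X r))) with h | h | h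
    · exact (k3 _ _ h).imp fun _ h => ⟨h.1.le, h.2⟩
    · exact ⟨_, le_rfl, h.symm⟩
    obtain ⟨i, hi⟩ := (hξ δ d1).le (max_lt_iff.1 (d2 _ h)).1
    exact ((h1 _ _ (mem_biUnion (mem_biUnion (k1 ((e2 _ _).1 (a1 r i))).le rfl)
      ⟨ν i, (w2 i).le, congrArg Prod.fst (a2 r i)⟩)).ne hi).elim
  choose u u1 u2 using this
  have a4 : ∀ r i, e (R (X r) (ν i)) < u r := fun r i => (u1 r).eq_or_lt.elim
    (fun h => h ▸ (e2 _ _).1 (a1 r i)) fun h => ((k2 _).total ((e2 _ _).1 (a1 r i)) h).elim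
      (fun g => g.lt_of_ne fun c => (a3 r i).ne (c ▸ u2 r)) fun g =>
        ((a3 r i).not_ge (u2 r ▸ k1.monotone g)).elim
  suffices Injective u from let ⟨b, hb⟩ := unc ((k4 δ).preimage this); hb (u2 b)
  refine fun r s h => hρ (funext fun i => ?_)
  have n : ∀ r s, ¬ e (R (X r) (ν i)) < e (R (X s) (ν i)) := fun r s h =>
    (sm ((e2 _ _).2 h)).ne ((o1 _ _).trans (o1 _ _).symm)
  have : R (X r) (ν i) = R (X s) (ν i) := e1 (((k2 _).total (a4 r i) (h ▸ a4 s i)).elim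
    (fun g => g.eq_or_lt.resolve_right (n _ _)) fun g => (g.eq_or_lt.resolve_right (n _ _)).symm)
  exact congrArg Prod.snd ((a2 r i).symm.trans (this ▸ a2 s i))

end Pool.Agent.H.MP_6e75db_lc
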